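import Mathlib

set_option autoImplicit false

/-! The monoid of the points `(k, q)` of `ℕ × ℕ` above the graph of a subadditive function. -/

namespace Pool.Agent.X27.Geo

open Filter Topology

/-- The data: `g` is subadditive, `g 0 = 0`, `2 k < g k ≤ 3 k` for `k ≥ 1`. -/
structure Sub (g : ℕ → ℕ) : Prop where
  zero : g 0 = 0
  add : ∀ j k, g (j + k) ≤ g j + g k
  lo : ∀ k, 1 ≤ k → 2 * k + 1 ≤ g k
  hi : ∀ k, g k ≤ 3 * k

variable {g : ℕ → ℕ}

/-- The monoid above the graph. -/
def mon (h : Sub g) : AddSubmonoid (ℕ × ℕ) where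
  carrier := {p | g p.1 ≤ p.2}
  zero_mem' := by
    show g 0 ≤ 0
    rw [h.zero]
  add_mem' := by
    intro a b ha hb
    show g (a.1 + b.1) ≤ a.2 + b.2
    have ha' : g a.1 ≤ a.2 := ha
    have hb' : g b.1 ≤ b.2 := hb
    have := h.add a.1 b.1
    omega

theorem mem_mon (h : Sub g) {p : ℕ × ℕ} : p ∈ mon h ↔ g p.1 ≤ p.2 := Iff.rfl

/-- The least slope is attained at `k0`. -/
def Att (g : ℕ → ℕ) (k0 : ℕ) : Prop := 1 ≤ k0 ∧ ∀ k, g k0 * k ≤ g k * k0

/-- An indecomposable element of a submonoid. -/
def Ind (S : AddSubmonoid (ℕ × ℕ)) (p : ℕ × ℕ) : Prop :=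
  p ∈ S ∧ p ≠ 0 ∧ ∀ a b, a ∈ S → b ∈ S → a ≠ 0 → b ≠ 0 → p ≠ a + b

theorem nat_antitone_eventually (f : ℕ → ℕ) (hf : ∀ n, f (n + 1) ≤ f n) :
    ∃ N, ∀ n, N ≤ n → f n = f N := by
  obtain ⟨N, hN⟩ : ∃ N, ∀ n, f N ≤ f n := by
    obtain ⟨N, hN⟩ := Nat.sInf_mem (s := Set.range f) ⟨f 0, 0, rfl⟩
    exact ⟨N, fun n => by rw [hN]; exact Nat.sInf_le ⟨n, rfl⟩⟩
  refine ⟨N, fun n hn => le_antisymm ?_ (hN n)⟩
  obtain ⟨d, rfl⟩ := Nat.exists_eq_add_of_le hn
  induction d with
  | zero => simp
  | succ d ih => exact (hf (N + d)).trans (ih (by omega))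

/-- If the least slope is attained then `g` is eventually periodic up to a linear function. -/
theorem Att.periodic (h : Sub g) {k0 : ℕ} (hk : Att g k0) :
    ∃ K, ∀ k, K ≤ k → g (k + k0) = g k + g k0 := by
  obtain ⟨h1, h2⟩ := hk
  have key : ∀ r : ℕ, ∃ N, ∀ n, N ≤ n → g (r + n * k0 + k0) = g (r + n * k0) + g k0 := by
    intro r
    obtain ⟨N, hN⟩ := nat_antitone_eventually (fun n => g (r + n * k0) * k0 - g k0 * (r + n * k0)) (by
      intro n
      show g (r + (n + 1) * k0) * k0 - g k0 * (r + (n + 1) * k0) ≤ g (r + n * k0) * k0 - g k0 * (r + n * k0)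
      have e : r + (n + 1) * k0 = (r + n * k0) + k0 := by ring
      rw [e]
      have h3 := h.add (r + n * k0) k0
      have h4 : g (r + n * k0 + k0) * k0 ≤ (g (r + n * k0) + g k0) * k0 := Nat.mul_le_mul_right _ h3
      have h5 := h2 (r + n * k0)
      rw [add_mul] at h4
      rw [mul_add]
      omega)
    refine ⟨N, fun n hn => ?_⟩
    have h3 := (hN (n + 1) (by omega)).trans (hN n hn).symm
    have e : r + (n + 1) * k0 = (r + n * k0) + k0 := by ring
    rw [e] at h3
    have h5 := h2 (r + n * k0)
    have h6 := h2 (r + n * k0 + k0)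
    rw [mul_add] at h3 h6
    have h7 : g (r + n * k0 + k0) * k0 = g (r + n * k0) * k0 + g k0 * k0 := by omega
    rw [← add_mul] at h7
    exact Nat.eq_of_mul_eq_mul_right h1 h7
  choose N hN using key
  obtain ⟨B, hB⟩ : ∃ B, ∀ r, r < k0 → N r ≤ B :=
    ⟨(Finset.range k0).sup N, fun r hr => Finset.le_sup (f := N) (Finset.mem_range.2 hr)⟩
  refine ⟨(B + 1) * k0, fun k hk => ?_⟩
  have h3 : k % k0 < k0 := Nat.mod_lt _ h1
  have h4 : k % k0 + (k / k0) * k0 = k := by rw [mul_comm]; exact Nat.mod_add_div k k0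
  have h5 : B + 1 ≤ k / k0 := by rw [Nat.le_div_iff_mul_le h1]; exact hk
  have h6 := hN (k % k0) (k / k0) ((hB _ h3).trans (by omega))
  rwa [h4] at h6

/-- If the least slope is attained then the monoid is finitely generated. -/
theorem Att.fg (h : Sub g) {k0 : ℕ} (hk : Att g k0) : (mon h).FG := by
  obtain ⟨K, hK⟩ := hk.periodic h
  have h1 := hk.1
  refine ⟨insert (0, 1) ((Finset.range (K + k0 + 1)).image fun k => (k, g k)), ?_⟩
  apply le_antisymm
  · rw [AddSubmonoid.closure_le]
    intro p hp
    simp only [Finset.coe_insert, Finset.coe_image, Set.mem_insert_iff, Set.mem_image] at hp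
    rcases hp with rfl | ⟨k, -, rfl⟩
    · show g 0 ≤ 1
      rw [h.zero]; omega
    · exact le_refl (g k)
  · intro p hp
    have hgen : ∀ k, k < K + k0 + 1 → (k, g k) ∈ AddSubmonoid.closure
        ((insert (0, 1) ((Finset.range (K + k0 + 1)).image fun k => (k, g k)) : Finset (ℕ × ℕ)) : Set (ℕ × ℕ)) := by
      intro k hk'
      apply AddSubmonoid.subset_closure
      simp only [Finset.coe_insert, Finset.coe_image, Set.mem_insert_iff, Set.mem_image]
      exact Or.inr ⟨k, by simpa using hk', rfl⟩
    have hg : ∀ k, (k, g k) ∈ AddSubmonoid.closure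
        ((insert (0, 1) ((Finset.range (K + k0 + 1)).image fun k => (k, g k)) : Finset (ℕ × ℕ)) : Set (ℕ × ℕ)) := by
      intro k
      induction k using Nat.strong_induction_on with
      | _ k ih =>
        rcases Nat.lt_or_ge k (K + k0 + 1) with h3 | h3
        · exact hgen k h3
        · have h4 := ih (k - k0) (by omega)
          have h5 := hK (k - k0) (by omega)
          rw [Nat.sub_add_cancel (by omega)] at h5
          have h6 := AddSubmonoid.add_mem _ h4 (hgen k0 (by omega))
          have e : ((k - k0, g (k - k0)) + (k0, g k0) : ℕ × ℕ) = (k, g k) := by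
            rw [h5]
            exact Prod.ext (Nat.sub_add_cancel (by omega)) rfl
          rwa [e] at h6
    have h01 : ((0, 1) : ℕ × ℕ) ∈ AddSubmonoid.closure
        ((insert (0, 1) ((Finset.range (K + k0 + 1)).image fun k => (k, g k)) : Finset (ℕ × ℕ)) : Set (ℕ × ℕ)) := by
      apply AddSubmonoid.subset_closure
      simp
    have h7 := AddSubmonoid.add_mem _ (hg p.1) (AddSubmonoid.nsmul_mem _ h01 (p.2 - g p.1))
    have e : ((p.1, g p.1) + (p.2 - g p.1) • ((0, 1) : ℕ × ℕ) : ℕ × ℕ) = p := by
      have : g p.1 ≤ p.2 := hp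
      refine Prod.ext ?_ ?_
      · simp
      · simp only [Prod.snd_add, Prod.smul_snd, smul_eq_mul, mul_one]
        omega
    rwa [e] at h7

/-- If the monoid is finitely generated then the least slope is attained. -/
theorem att_of_fg (h : Sub g) (hf : (mon h).FG) : ∃ k0, Att g k0 := by
  obtain ⟨F, hF⟩ := hf
  have h13 : ((1, 3) : ℕ × ℕ) ∈ mon h := by
    show g 1 ≤ 3
    have := h.hi 1
    omega
  have hFm : ∀ p ∈ F, p ∈ mon h := by
    intro p hp
    rw [← hF]
    exact AddSubmonoid.subset_closure hp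
  -- some generator has positive first coordinate
  have hne : ∃ p ∈ F, 1 ≤ p.1 := by
    by_contra hcon
    push Not at hcon
    have : ∀ p ∈ AddSubmonoid.closure (F : Set (ℕ × ℕ)), p.1 = 0 := by
      intro p hp
      induction hp using AddSubmonoid.closure_induction with
      | mem x hx => have := hcon x hx; omega
      | zero => rfl
      | add x y _ _ hx hy => simp [hx, hy]
    have h2 := this (1, 3) (by rw [hF]; exact h13)
    simp at h2
  obtain ⟨P, hP, hmin⟩ := Finset.exists_min_image (F.filter fun p => 1 ≤ p.1)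
    (fun p => (p.2 : ℚ) / p.1) (by
      obtain ⟨p, hp, hp1⟩ := hne
      exact ⟨p, Finset.mem_filter.2 ⟨hp, hp1⟩⟩)
  rw [Finset.mem_filter] at hP
  have hP1 : (0 : ℚ) < P.1 := by exact_mod_cast hP.2
  have hall : ∀ p ∈ AddSubmonoid.closure (F : Set (ℕ × ℕ)), P.2 * p.1 ≤ p.2 * P.1 := by
    intro p hp
    induction hp using AddSubmonoid.closure_induction with
    | mem x hx =>
      rcases Nat.eq_zero_or_pos x.1 with h0 | h0
      · simp [h0]
      · have h3 := hmin x (Finset.mem_filter.2 ⟨hx, h0⟩)
        have h0' : (0 : ℚ) < x.1 := by exact_mod_cast h0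
        rw [div_le_div_iff₀ hP1 h0'] at h3
        exact_mod_cast h3
    | zero => simp
    | add x y _ _ hx hy =>
      simp only [Prod.fst_add, Prod.snd_add, mul_add, add_mul]
      omega
  rw [hF] at hall
  have h4 : g P.1 ≤ P.2 := hFm P hP.1
  have h5 := hall (P.1, g P.1) (le_refl (g P.1))
  simp only at h5
  have h6 : P.2 ≤ g P.1 := Nat.le_of_mul_le_mul_right h5 hP.2
  refine ⟨P.1, hP.2, fun k => ?_⟩
  have h7 := hall (k, g k) (le_refl (g k))
  rw [← le_antisymm h6 h4]
  exact h7

theorem ind_mem_of_closure {S : AddSubmonoid (ℕ × ℕ)} {F : Set (ℕ × ℕ)}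
    (hF : AddSubmonoid.closure F = S) {p : ℕ × ℕ} (hp : Ind S p) : p ∈ F := by
  have key : ∀ x ∈ AddSubmonoid.closure F, x = 0 ∨ x ∈ F ∨
      ∃ a b, a ∈ S ∧ b ∈ S ∧ a ≠ 0 ∧ b ≠ 0 ∧ x = a + b := by
    intro x hx
    induction hx using AddSubmonoid.closure_induction with
    | mem x hx => exact Or.inr (Or.inl hx)
    | zero => exact Or.inl rfl
    | add x y hx' hy' hx hy =>
      by_cases h1 : x = 0
      · rw [h1, zero_add]; exact hy
      by_cases h2 : y = 0
      · rw [h2, add_zero]; exact hx
      exact Or.inr (Or.inr ⟨x, y, hF ▸ hx', hF ▸ hy', h1, h2, rfl⟩)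
  obtain ⟨h1, h2, h3⟩ := hp
  rcases key p (hF ▸ h1) with h | h | ⟨a, b, ha, hb, ha0, hb0, h⟩
  · exact absurd h h2
  · exact h
  · exact absurd h (h3 a b ha hb ha0 hb0)

theorem closure_ind (S : AddSubmonoid (ℕ × ℕ)) : AddSubmonoid.closure {p | Ind S p} = S := by
  apply le_antisymm
  · rw [AddSubmonoid.closure_le]
    exact fun p hp => hp.1
  · have key : ∀ n : ℕ, ∀ p : ℕ × ℕ, p.1 + p.2 = n → p ∈ S → p ∈ AddSubmonoid.closure {p | Ind S p} := by
      intro n
      induction n using Nat.strong_induction_on with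
      | _ n ih =>
        intro p hpn hp
        by_cases h0 : p = 0
        · rw [h0]; exact AddSubmonoid.zero_mem _
        by_cases hI : Ind S p
        · exact AddSubmonoid.subset_closure hI
        have : ∃ a b, a ∈ S ∧ b ∈ S ∧ a ≠ 0 ∧ b ≠ 0 ∧ p = a + b := by
          by_contra hcon
          push Not at hcon
          exact hI ⟨hp, h0, fun a b ha hb ha0 hb0 => hcon a b ha hb ha0 hb0⟩
        obtain ⟨a, b, ha, hb, ha0, hb0, rfl⟩ := this
        have pos : ∀ x : ℕ × ℕ, x ≠ 0 → 1 ≤ x.1 + x.2 := by
          intro x hx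
          by_contra hcon
          apply hx
          exact Prod.ext (by omega : x.1 = 0) (by omega : x.2 = 0)
        have pa := pos a ha0
        have pb := pos b hb0
        simp only [Prod.fst_add, Prod.snd_add] at hpn
        exact AddSubmonoid.add_mem _ (ih (a.1 + a.2) (by omega) a rfl ha)
          (ih (b.1 + b.2) (by omega) b rfl hb)
    exact fun p hp => key _ p rfl hp

theorem fg_iff_finite_ind (S : AddSubmonoid (ℕ × ℕ)) : S.FG ↔ {p | Ind S p}.Finite := by
  constructor
  · rintro ⟨F, hF⟩
    exact F.finite_toSet.subset fun p hp => ind_mem_of_closure hF hp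
  · intro h
    exact ⟨h.toFinset, by rw [h.coe_toFinset]; exact closure_ind S⟩

/-- The monoid is computable if `g` is eventually periodic up to a linear function. -/
theorem computable_of_periodic {k0 q0 K : ℕ} (h1 : 1 ≤ k0)
    (hK : ∀ k, K ≤ k → g (k + k0) = g k + q0) :
    PrimrecPred fun p : ℕ × ℕ => g p.1 ≤ p.2 := by
  have hlin : ∀ n r, g (K + r + n * k0) = g (K + r) + n * q0 := by
    intro n r
    induction n with
    | zero => simp
    | succ n ih =>
      have e : K + r + (n + 1) * k0 = (K + r + n * k0) + k0 := by ring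
      rw [e, hK _ (by omega), ih]
      ring
  -- a primitive recursive form of g
  have hg : ∀ k, g k = if k < K then ((List.range K).map g).getD k 0
      else ((List.range k0).map fun r => g (K + r)).getD ((k - K) % k0) 0 + (k - K) / k0 * q0 := by
    intro k
    split_ifs with hk
    · simp [List.getD, hk]
    · rw [not_lt] at hk
      have h3 : (k - K) % k0 < k0 := Nat.mod_lt _ h1
      have h4 : K + (k - K) % k0 + (k - K) / k0 * k0 = k := by
        have := Nat.mod_add_div (k - K) k0
        rw [mul_comm k0] at this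
        omega
      have h5 := hlin ((k - K) / k0) ((k - K) % k0)
      rw [h4] at h5
      rw [h5]
      simp [List.getD, h3]
  have hprim : Primrec g := by
    have : Primrec fun k : ℕ => if k < K then ((List.range K).map g).getD k 0
      else ((List.range k0).map fun r => g (K + r)).getD ((k - K) % k0) 0 + (k - K) / k0 * q0 := by
      refine Primrec.ite ?_ ?_ ?_
      · exact Primrec.nat_lt.comp Primrec.id (Primrec.const K)
      · exact (Primrec.list_getD 0).comp (Primrec.const _) Primrec.id
      · refine Primrec.nat_add.comp ?_ ?_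
        · exact (Primrec.list_getD 0).comp (Primrec.const _)
            (Primrec.nat_mod.comp (Primrec.nat_sub.comp Primrec.id (Primrec.const K)) (Primrec.const k0))
        · exact Primrec.nat_mul.comp
            (Primrec.nat_div.comp (Primrec.nat_sub.comp Primrec.id (Primrec.const K)) (Primrec.const k0))
            (Primrec.const q0)
    exact this.of_eq fun k => (hg k).symm
  exact Primrec.nat_le.comp (hprim.comp Primrec.fst) Primrec.snd

/-- If the least slope is not attained, there are indecomposable elements with arbitrarily large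
first coordinate and slope smaller than any given slope of an element. -/
theorem many_ind (h : Sub g) (hn : ¬ ∃ k0, Att g k0) {k q : ℕ} (hk : 1 ≤ k) (hq : g k ≤ q) (N : ℕ) :
    ∃ p : ℕ × ℕ, Ind (mon h) p ∧ N ≤ p.1 ∧ p.2 * k < q * p.1 := by
  -- a slope smaller than all slopes of elements with small first coordinate, and than q / k
  by_contra hcon
  push Not at hcon
  -- all indecomposable elements with slope below q / k have first coordinate < N
  -- let (a, b) be the element of least slope among those with first coordinate in [1, max N k]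
  obtain ⟨a, ha, hmin⟩ := Finset.exists_min_image (Finset.Icc 1 (max N k))
    (fun j => (g j : ℚ) / j) ⟨k, Finset.mem_Icc.2 ⟨hk, le_max_right _ _⟩⟩
  rw [Finset.mem_Icc] at ha
  have ha0 : (0 : ℚ) < a := by exact_mod_cast ha.1
  have hk0 : (0 : ℚ) < k := by exact_mod_cast hk
  apply hn
  refine ⟨a, ha.1, ?_⟩
  -- all indecomposable elements have slope at least g a / a
  have hall : ∀ p ∈ AddSubmonoid.closure {p | Ind (mon h) p}, g a * p.1 ≤ p.2 * a := by
    intro p hp
    induction hp using AddSubmonoid.closure_induction with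
    | mem x hx =>
      rcases Nat.eq_zero_or_pos x.1 with h0 | h0
      · simp [h0]
      have hx0 : (0 : ℚ) < x.1 := by exact_mod_cast h0
      have hxg : g x.1 ≤ x.2 := hx.1
      rcases Nat.lt_or_ge x.1 N with h3 | h3
      · have h4 := hmin x.1 (Finset.mem_Icc.2 ⟨h0, by omega⟩)
        rw [div_le_div_iff₀ ha0 hx0] at h4
        have h5 : g a * x.1 ≤ g x.1 * a := by exact_mod_cast h4
        exact h5.trans (Nat.mul_le_mul_right _ hxg)
      · have h4 := hcon x hx h3
        have h5 := hmin k (Finset.mem_Icc.2 ⟨hk, le_max_right _ _⟩)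
        rw [div_le_div_iff₀ ha0 hk0] at h5
        have h6 : g a * k ≤ g k * a := by exact_mod_cast h5
        have h7 : g a * k ≤ q * a := h6.trans (Nat.mul_le_mul_right _ hq)
        have h8 : g a * x.1 * k ≤ x.2 * a * k := by
          calc g a * x.1 * k = g a * k * x.1 := by ring
            _ ≤ q * a * x.1 := Nat.mul_le_mul_right _ h7
            _ = q * x.1 * a := by ring
            _ ≤ x.2 * k * a := Nat.mul_le_mul_right _ h4
            _ = x.2 * a * k := by ring
        exact Nat.le_of_mul_le_mul_right h8 hk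
    | zero => simp
    | add x y _ _ hx hy =>
      simp only [Prod.fst_add, Prod.snd_add, mul_add, add_mul]
      omega
  intro j
  have hj : ((j, g j) : ℕ × ℕ) ∈ AddSubmonoid.closure {p | Ind (mon h) p} := by
    rw [closure_ind]
    exact le_refl (g j)
  exact hall _ hj

end Pool.Agent.X27.Geo
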